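import Pool.Agent.W516.K3.Defs2

set_option autoImplicit false

namespace Pool.Agent.W655.DK

open Module TensorProduct Polynomial Pool.Agent.W516.K3

section Hyp

variable {V : Type} [AddCommGroup V] [Module ℝ V]

/-- the real quadratic polynomial with roots `a ± i c` -/
noncomputable def Q (a c : ℝ) : ℝ[X] := X ^ 2 - C (2 * a) * X + C (a ^ 2 + c ^ 2)

theorem Q_apply (A : Module.End ℝ V) (a c : ℝ) (v : V) :
    aeval A (Q a c) v = A (A v) - (2 * a) • A v + (a ^ 2 + c ^ 2) • v := by
  simp only [Q, pow_two, map_add, map_sub, map_mul, aeval_X, aeval_C, LinearMap.add_apply,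
    LinearMap.sub_apply, Module.End.mul_apply, Module.algebraMap_end_apply]
  module

theorem noRe_iff (A : Module.End ℝ V) :
    NoRe A ↔ ∀ a c : ℝ, a ≠ 0 → ∀ v : V, aeval A (Q a c) v = 0 → v = 0 := by
  simp only [NoRe, Q_apply]

theorem ker_prod_le (A : Module.End ℝ V) (S : Finset ℝ) :
    LinearMap.ker (aeval A (∏ μ ∈ S, (X - C μ))) ≤ ⨆ μ : ℝ, Module.End.eigenspace A μ := by
  classical
  induction S using Finset.induction_on with
  | empty => simp [Module.End.one_eq_id]
  | insert μ S hμ ih =>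
    rw [Finset.prod_insert hμ, ← sup_ker_aeval_eq_ker_aeval_mul_of_coprime]
    · refine sup_le ?_ ih
      intro v hv
      refine Submodule.mem_iSup_of_mem μ ?_
      rw [Module.End.mem_eigenspace_iff]
      simp only [map_sub, aeval_X, aeval_C, LinearMap.mem_ker, LinearMap.sub_apply,
        Module.algebraMap_end_apply, sub_eq_zero] at hv
      exact hv
    · refine IsCoprime.prod_right fun ν hν => ?_
      apply isCoprime_X_sub_C_of_isUnit_sub
      refine (sub_ne_zero.2 ?_).isUnit
      rintro rfl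
      exact hμ hν

theorem hyp_iff [FiniteDimensional ℝ V] (A : Module.End ℝ V) :
    IsHyp A ↔ ∃ S : Finset ℝ, aeval A (∏ μ ∈ S, (X - C μ)) = 0 := by
  classical
  constructor
  · intro h
    have hfin : {μ : ℝ | A.HasEigenvalue μ}.Finite := Module.End.finite_hasEigenvalue A
    refine ⟨hfin.toFinset, ?_⟩
    rw [← LinearMap.ker_eq_top, eq_top_iff, ← h]
    refine iSup_le fun μ => ?_
    intro v hv
    by_cases hv0 : v = 0
    · rw [hv0]; exact Submodule.zero_mem _
    have hμ : A.HasEigenvalue μ := Module.End.hasEigenvalue_of_hasEigenvector ⟨hv, hv0⟩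
    have hmem : μ ∈ hfin.toFinset := by simpa using hμ
    rw [← Finset.mul_prod_erase _ _ hmem, mul_comm, LinearMap.mem_ker, map_mul,
      Module.End.mul_apply]
    have : (aeval A (X - C μ)) v = 0 := by
      simp only [map_sub, aeval_X, aeval_C, LinearMap.sub_apply,
        Module.algebraMap_end_apply, sub_eq_zero]
      exact Module.End.mem_eigenspace_iff.1 hv
    rw [this, map_zero]
  · rintro ⟨S, hS⟩
    have := ker_prod_le A S
    rw [hS] at this
    unfold IsHyp
    rw [eq_top_iff]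
    refine le_trans ?_ this
    simp

theorem hyp_add [FiniteDimensional ℝ V] (A B : Module.End ℝ V) (hAB : A * B = B * A)
    (hA : IsHyp A) (hB : IsHyp B) : IsHyp (A + B) := by
  unfold IsHyp at *
  rw [eq_top_iff, ← hA]
  refine iSup_le fun μ => ?_
  set p := Module.End.eigenspace A μ with hp
  have hst : ∀ x ∈ p, B x ∈ p := by
    intro x hx
    rw [hp, Module.End.mem_eigenspace_iff] at hx ⊢
    have h1 : A (B x) = B (A x) := LinearMap.congr_fun hAB x
    rw [h1, hx, map_smul]
  have hr := Module.End.genEigenspace_restrict_eq_top (k := 1) hst hB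
  have hmap := congrArg (Submodule.map p.subtype) hr
  rw [Submodule.map_iSup, Submodule.map_top, Submodule.range_subtype] at hmap
  rw [← hmap]
  refine iSup_le fun ν => ?_
  rintro _ ⟨x, hx, rfl⟩
  refine Submodule.mem_iSup_of_mem (μ + ν) ?_
  have h1 : (x : V) ∈ Module.End.eigenspace B ν :=
    Module.End.eigenspace_restrict_le_eigenspace B hst ν ⟨x, hx, rfl⟩
  have h2 : (x : V) ∈ Module.End.eigenspace A μ := x.2
  rw [Module.End.mem_eigenspace_iff] at h1 h2 ⊢
  simp only [Submodule.subtype_apply, LinearMap.add_apply, h1, h2, add_smul]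

end Hyp

section Complexify

variable {V : Type} [AddCommGroup V] [Module ℝ V]

theorem Q_map (A : Module.End ℝ V) (z : ℂ) :
    (aeval A (Q z.re z.im)).baseChange ℂ =
      (A.baseChange ℂ - (starRingEnd ℂ z) • 1) * (A.baseChange ℂ - z • 1) := by
  have h : ∀ P : ℝ[X], (aeval A P).baseChange ℂ = aeval (A.baseChange ℂ) P := by
    intro P
    induction P using Polynomial.induction_on' with
    | add p q hp hq => rw [map_add, map_add, LinearMap.baseChange_add, hp, hq]
    | monomial n a =>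
      rw [aeval_monomial, aeval_monomial, LinearMap.baseChange_mul, LinearMap.baseChange_pow]
      congr 1
      ext v
      simp [Module.algebraMap_end_apply, TensorProduct.smul_tmul']
  rw [h]
  have k : ∀ (r : ℝ) (f : Module.End ℂ (ℂ ⊗[ℝ] V)), (r : ℂ) • f = r • f :=
    fun r f => algebraMap_smul ℂ r f
  have h2 : aeval (A.baseChange ℂ) (Q z.re z.im) = (A.baseChange ℂ) * (A.baseChange ℂ) -
      ((2 * z.re : ℝ) : ℂ) • (A.baseChange ℂ) + ((z.re ^ 2 + z.im ^ 2 : ℝ) : ℂ) • 1 := by
    rw [Q, map_add, map_sub, map_mul, map_pow, aeval_X, aeval_C, aeval_C, pow_two,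
      Algebra.algebraMap_eq_smul_one, Algebra.algebraMap_eq_smul_one, smul_mul_assoc, one_mul,
      k, k]
  rw [h2]
  have e1 : ((2 * z.re : ℝ) : ℂ) = z + starRingEnd ℂ z := by
    rw [Complex.add_conj]
  have e2 : ((z.re ^ 2 + z.im ^ 2 : ℝ) : ℂ) = starRingEnd ℂ z * z := by
    rw [Complex.conj_mul', ← Complex.ofReal_pow, Complex.sq_norm, Complex.normSq_apply]
    congr 1; ring
  rw [e1, e2]
  simp only [sub_mul, mul_sub, smul_mul_assoc, mul_smul_comm, one_mul, mul_one, smul_sub,
    add_smul, mul_smul]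
  rw [smul_comm z (starRingEnd ℂ z) (1 : Module.End ℂ (ℂ ⊗[ℝ] V))]
  abel

/-- the eigenvalues of the complexification are purely imaginary -/
theorem noRe_eig (A : Module.End ℝ V) (hA : NoRe A) (z : ℂ) (w : ℂ ⊗[ℝ] V) (hw : w ≠ 0)
    (h : A.baseChange ℂ w = z • w) : z.re = 0 := by
  by_contra hz
  rw [noRe_iff] at hA
  have hinj : Function.Injective (aeval A (Q z.re z.im)) := by
    rw [← LinearMap.ker_eq_bot, eq_bot_iff]
    intro v hv
    exact hA z.re z.im hz v hv
  have hinj2 : Function.Injective ((aeval A (Q z.re z.im)).baseChange ℂ) :=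
    Module.Flat.lTensor_preserves_injective_linearMap (M := ℂ) _ hinj
  apply hw
  apply hinj2
  rw [map_zero, Q_map, Module.End.mul_apply, LinearMap.sub_apply (A.baseChange ℂ) (z • 1), h]
  simp

theorem eig_of_ker (A : Module.End ℝ V) (a c : ℝ) (v : V) (hv : v ≠ 0)
    (h : aeval A (Q a c) v = 0) : ∃ z : ℂ, z.re = a ∧ ∃ w : ℂ ⊗[ℝ] V, w ≠ 0 ∧
      A.baseChange ℂ w = z • w := by
  set z : ℂ := ⟨a, c⟩ with hz
  have h1 : (aeval A (Q z.re z.im)).baseChange ℂ ((1 : ℂ) ⊗ₜ v) = 0 := by
    rw [LinearMap.baseChange_tmul, h, tmul_zero]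
  rw [Q_map, Module.End.mul_apply] at h1
  have hv1 : (1 : ℂ) ⊗ₜ[ℝ] v ≠ 0 := by
    intro h0
    apply hv
    apply Module.Flat.tensorProduct_mk_injective (R := ℝ) (S := ℂ) (M := V)
    simpa using h0
  by_cases h2 : (A.baseChange ℂ - z • 1) ((1 : ℂ) ⊗ₜ[ℝ] v) = 0
  · refine ⟨z, rfl, _, hv1, ?_⟩
    simpa [sub_eq_zero] using h2
  · refine ⟨starRingEnd ℂ z, by simp [hz], _, h2, ?_⟩
    rw [LinearMap.sub_apply, sub_eq_zero] at h1
    rw [h1]
    simp

theorem noRe_add [FiniteDimensional ℝ V] (A B : Module.End ℝ V) (hAB : A * B = B * A)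
    (hA : NoRe A) (hB : NoRe B) : NoRe (A + B) := by
  rw [noRe_iff]
  intro a c ha v hv
  by_contra hv0
  obtain ⟨z, hz, w, hw, hwz⟩ := eig_of_ker (A + B) a c v hv0 hv
  set A' := A.baseChange ℂ
  set B' := B.baseChange ℂ
  have hcomm : A' * B' = B' * A' := by
    rw [← LinearMap.baseChange_mul, ← LinearMap.baseChange_mul, hAB]
  rw [LinearMap.baseChange_add] at hwz
  set E := Module.End.eigenspace (A' + B') z with hE
  have hst : ∀ x ∈ E, A' x ∈ E := by
    intro x hx
    rw [hE, Module.End.mem_eigenspace_iff] at hx ⊢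
    have h1 : (A' + B') (A' x) = A' ((A' + B') x) := by
      have : A' (B' x) = B' (A' x) := LinearMap.congr_fun hcomm x
      simp only [LinearMap.add_apply, map_add, this]
    rw [h1, hx, map_smul]
  have hwE : w ∈ E := Module.End.mem_eigenspace_iff.2 hwz
  have : Nontrivial E := ⟨⟨⟨w, hwE⟩, 0, fun h => hw (congrArg Subtype.val h)⟩⟩
  obtain ⟨α, hα⟩ := Module.End.exists_eigenvalue (A'.restrict hst)
  obtain ⟨x, hx⟩ := hα.exists_hasEigenvector
  have hx0 : (x : ℂ ⊗[ℝ] V) ≠ 0 := fun h => hx.2 (Subtype.ext h)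
  have hxA : A' (x : ℂ ⊗[ℝ] V) = α • (x : ℂ ⊗[ℝ] V) :=
    congrArg Subtype.val (Module.End.mem_eigenspace_iff.1 hx.1)
  have hxS : (A' + B') (x : ℂ ⊗[ℝ] V) = z • (x : ℂ ⊗[ℝ] V) := Module.End.mem_eigenspace_iff.1 x.2
  have hxB : B' (x : ℂ ⊗[ℝ] V) = (z - α) • (x : ℂ ⊗[ℝ] V) := by
    rw [sub_smul, ← hxS, ← hxA, LinearMap.add_apply, add_sub_cancel_left]
  have h1 := noRe_eig A hA α _ hx0 hxA
  have h2 := noRe_eig B hB (z - α) _ hx0 hxB
  rw [Complex.sub_re, h1, hz, sub_zero] at h2
  exact ha h2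

end Complexify

section Transfer

theorem noRe_transfer {V W : Type} [AddCommGroup V] [Module ℝ V] [FiniteDimensional ℝ V]
    [AddCommGroup W] [Module ℝ W] (A : Module.End ℝ V)
    (B : Module.End ℝ W) (h : ∀ p : ℝ[X], aeval A p = 0 → aeval B p = 0) (hA : NoRe A) :
    NoRe B := by
  rw [noRe_iff] at *
  intro a c ha v hv
  have hint : IsIntegral ℝ A := Algebra.IsIntegral.isIntegral A
  have hm0 : minpoly ℝ A ≠ 0 := minpoly.ne_zero hint
  have hcop : IsCoprime (Q a c) (minpoly ℝ A) := by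
    refine isCoprime_of_irreducible_dvd (fun h => hm0 h.2) ?_
    rintro g hg ⟨s, hs⟩ ⟨r, hr⟩
    have hr0 : r ≠ 0 := by
      rintro rfl
      rw [mul_zero] at hr
      exact hm0 hr
    have hrA : aeval A r ≠ 0 := by
      intro h0
      have hd := minpoly.degree_le_of_ne_zero ℝ A hr0 h0
      rw [hr, degree_mul] at hd
      have hg0 := degree_pos_of_irreducible hg
      have : degree r < degree g + degree r := by
        rw [degree_eq_natDegree hr0, degree_eq_natDegree hg.ne_zero] at *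
        norm_cast at *
        omega
      exact absurd hd (not_le.2 this)
    apply hrA
    ext w
    refine (hA a c ha _ ?_).trans rfl
    rw [← Module.End.mul_apply, ← map_mul, hs]
    have : g * s * r = s * minpoly ℝ A := by rw [hr]; ring
    rw [this, map_mul, minpoly.aeval, mul_zero]
    rfl
  obtain ⟨u, t, hut⟩ := hcop
  have h1 : aeval B (minpoly ℝ A) = 0 := h _ (minpoly.aeval ℝ A)
  have h2 := congrArg (fun P => aeval B P v) hut
  simp only [map_add, map_mul, LinearMap.add_apply, Module.End.mul_apply, h1, hv, map_zero,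
    map_one, Module.End.one_apply] at h2
  simpa using h2.symm

end Transfer

theorem T_SUM : Pool.Agent.W516.K3.S_SUM := by
  refine ⟨?_, ?_, ?_, ?_⟩
  · intro V _ _ _ A B hAB hA hB
    exact noRe_add A B hAB hA hB
  · intro V _ _ _ A B hAB hA hB
    exact hyp_add A B hAB hA hB
  · intro V W _ _ _ _ _ _ A B h hA
    exact noRe_transfer A B h hA
  · intro V W _ _ _ _ _ _ A B h hA
    rw [hyp_iff] at *
    obtain ⟨S, hS⟩ := hA
    exact ⟨S, h _ hS⟩

end Pool.Agent.W655.DK
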